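import Mathlib
import Pool.Agent.W506.PM.Stm

/-! PM-GLD: global dimension at most four from the linear resolution (filtered lifting). -/

namespace Pool.Agent.W991.PMGLD

open CategoryTheory
open Pool.Agent.W506.PM

set_option autoImplicit false

universe u

/-- the projections of a grading -/
structure GP {A : Type u} [Ring A] (A1 : Set A) (cp : ℕ → A →+ A) : Prop where
  idem : ∀ i j a, cp j (cp i a) = if i = j then cp i a else 0
  mul : ∀ a b, b ∈ A1 → ∀ i, cp (i + 1) (a * b) = cp i a * b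
  mul0 : ∀ a b, b ∈ A1 → cp 0 (a * b) = 0
  fin : ∀ a, ∃ n, ∀ i, n ≤ i → cp i a = 0
  inj : ∀ a, (∀ i, cp i a = 0) → a = 0
  one : ∀ i, 1 ≤ i → cp i 1 = 0
  z : ∀ a, (∀ i, 1 ≤ i → cp i a = 0) → ∀ b i, cp i (b * a) = cp i b * a

section
variable {A : Type u} [Ring A] {A1 : Set A} {cp : ℕ → A →+ A}

/-- all components of degree `≥ n` vanish -/
def G (cp : ℕ → A →+ A) (n : ℕ) (a : A) : Prop := ∀ i, n ≤ i → cp i a = 0

theorem G0 (n : ℕ) : G cp n 0 := fun i _ => map_zero _

theorem Gadd {n : ℕ} {a b : A} (ha : G cp n a) (hb : G cp n b) : G cp n (a + b) := fun i hi => by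
  rw [map_add, ha i hi, hb i hi, add_zero]

theorem Gneg {n : ℕ} {a : A} (ha : G cp n a) : G cp n (-a) := fun i hi => by
  rw [map_neg, ha i hi, neg_zero]

theorem Gsub {n : ℕ} {a b : A} (ha : G cp n a) (hb : G cp n b) : G cp n (a - b) := by
  rw [sub_eq_add_neg]; exact Gadd ha (Gneg hb)

theorem Gsum {n : ℕ} {ι : Type*} (s : Finset ι) (f : ι → A) (h : ∀ i ∈ s, G cp n (f i)) :
    G cp n (∑ i ∈ s, f i) := fun j hj => by
  rw [map_sum]; exact Finset.sum_eq_zero fun i hi => h i hi j hj

theorem Gmono {n m : ℕ} {a : A} (h : n ≤ m) (ha : G cp n a) : G cp m a :=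
  fun i hi => ha i (h.trans hi)

theorem Gmul1 (H : GP A1 cp) {n : ℕ} {a b : A} (ha : G cp n a) (hb : b ∈ A1) :
    G cp (n + 1) (a * b) := by
  intro i hi
  obtain ⟨j, rfl⟩ : ∃ j, i = j + 1 := ⟨i - 1, by omega⟩
  rw [H.mul a b hb j, ha j (by omega), zero_mul]

theorem Gmul0 (H : GP A1 cp) {n : ℕ} {a b : A} (ha : G cp n a) (hb : G cp 1 b) :
    G cp n (a * b) := by
  intro i hi
  rw [H.z b hb a i, ha i hi, zero_mul]

/-- right multiplication by a matrix -/
def mm {r s : ℕ} (M : Fin r → Fin s → A) : (Fin r → A) →ₗ[A] (Fin s → A) where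
  toFun p j := ∑ i, p i * M i j
  map_add' p q := by
    funext j; simp only [Pi.add_apply, add_mul, Finset.sum_add_distrib]
  map_smul' a p := by
    funext j
    simp only [Pi.smul_apply, smul_eq_mul, RingHom.id_apply, Finset.mul_sum, mul_assoc]

theorem mm_apply {r s : ℕ} (M : Fin r → Fin s → A) (p : Fin r → A) (j : Fin s) :
    mm M p j = ∑ i, p i * M i j := rfl

variable {B : Type u}

/-- the filtration on the free modules -/
def GC (cp : ℕ → A →+ A) {r : ℕ} (n : ℕ) (f : B →₀ (Fin r → A)) : Prop := ∀ b c, G cp n (f b c)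

theorem GC0 {r : ℕ} (n : ℕ) : GC cp n (0 : B →₀ (Fin r → A)) := fun _ _ => G0 n

theorem GCadd {r n : ℕ} {f g : B →₀ (Fin r → A)} (hf : GC cp n f) (hg : GC cp n g) :
    GC cp n (f + g) := fun b c => Gadd (hf b c) (hg b c)

theorem GCneg {r n : ℕ} {f : B →₀ (Fin r → A)} (hf : GC cp n f) :
    GC cp n (-f) := fun b c => Gneg (hf b c)

theorem GCsub {r n : ℕ} {f g : B →₀ (Fin r → A)} (hf : GC cp n f) (hg : GC cp n g) :
    GC cp n (f - g) := fun b c => Gsub (hf b c) (hg b c)

theorem GCsum {r n : ℕ} {ι : Type*} (s : Finset ι) (f : ι → (B →₀ (Fin r → A)))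
    (h : ∀ i ∈ s, GC cp n (f i)) : GC cp n (∑ i ∈ s, f i) := by
  intro b c
  rw [Finsupp.finsetSum_apply, Finset.sum_apply]
  exact Gsum s _ fun i hi => h i hi b c

theorem GCmono {r n m : ℕ} {f : B →₀ (Fin r → A)} (h : n ≤ m) (hf : GC cp n f) : GC cp m f :=
  fun b c => Gmono h (hf b c)

theorem GCzero (H : GP A1 cp) {r : ℕ} {f : B →₀ (Fin r → A)} (hf : GC cp 0 f) : f = 0 := by
  ext b c
  exact H.inj _ fun i => hf b c i (Nat.zero_le _)

theorem GCex (H : GP A1 cp) {r : ℕ} (f : B →₀ (Fin r → A)) : ∃ n, GC cp n f := by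
  classical
  choose N hN using H.fin
  refine ⟨f.support.sup fun b => Finset.univ.sup fun c => N (f b c), fun b c => ?_⟩
  by_cases hb : b ∈ f.support
  · refine Gmono ?_ (hN (f b c))
    refine le_trans ?_ (Finset.le_sup (f := fun b => Finset.univ.sup fun c => N (f b c)) hb)
    exact Finset.le_sup (f := fun c => N (f b c)) (Finset.mem_univ c)
  · rw [Finsupp.notMem_support_iff.mp hb]
    exact G0 _

/-- the leading maps -/
noncomputable def dl {r s : ℕ} (M : Fin r → Fin s → A) :
    (B →₀ (Fin r → A)) →ₗ[A] (B →₀ (Fin s → A)) :=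
  Finsupp.mapRange.linearMap (mm M)

theorem dl_apply {r s : ℕ} (M : Fin r → Fin s → A) (f : B →₀ (Fin r → A)) (b : B) :
    dl M f b = mm M (f b) := rfl

theorem dl_GC (H : GP A1 cp) {r s n : ℕ} {M : Fin r → Fin s → A} (hM : ∀ i j, M i j ∈ A1)
    {f : B →₀ (Fin r → A)} (hf : GC cp n f) : GC cp (n + 1) (dl M f) := by
  intro b c
  rw [dl_apply, mm_apply]
  exact Gsum _ _ fun i _ => Gmul1 H (hf b i) (hM i c)

theorem constr (H : GP A1 cp) {r r' : ℕ} {Y : Type u} [AddCommGroup Y] [Module A Y]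
    (D : (B →₀ (Fin r → A)) →ₗ[A] Y) (M' : Fin r' → Fin r → A)
    (Z : ∀ b c, ∃ z : B →₀ (Fin r → A), GC cp 1 z ∧
      D z = D (dl M' (Finsupp.single b (Pi.single c 1))))
    (L : ∀ n (y : B →₀ (Fin r → A)), GC cp n y → D y = 0 →
      ∃ w : B →₀ (Fin r' → A), GC cp (n - 1) w ∧ GC cp (n - 1) (y - dl M' w)) :
    ∃ D' : (B →₀ (Fin r' → A)) →ₗ[A] (B →₀ (Fin r → A)),
      (∀ n y, GC cp n y → GC cp n (D' y - dl M' y)) ∧
      (∀ n y, GC cp n y → D y = 0 → ∃ z, GC cp (n - 1) z ∧ D' z = y) ∧
      (∀ y, D (D' y) = 0) := by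
  classical
  choose z hz1 hz2 using Z
  set E : (B →₀ (Fin r' → A)) →ₗ[A] (B →₀ (Fin r → A)) :=
    Finsupp.lsum ℕ (fun b => Fintype.linearCombination A (z b)) with hE
  have hEap : ∀ y, E y = ∑ b ∈ y.support, ∑ c, y b c • z b c := by
    intro y
    rw [hE, Finsupp.lsum_apply]
    rfl
  set T : (B →₀ (Fin r' → A)) →ₗ[A] (B →₀ (Fin r → A)) := dl M' - E with hT
  have ha : ∀ n y, GC cp n y → GC cp n (T y - dl M' y) := by
    intro n y hy
    have e : T y - dl M' y = - E y := by
      rw [hT, LinearMap.sub_apply]; abel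
    rw [e, hEap]
    refine GCneg (GCsum _ _ fun b _ => GCsum _ _ fun c _ => ?_)
    intro b' c'
    show G cp n (y b c * z b c b' c')
    exact Gmul0 H (hy b c) (hz1 b c b' c')
  have hc : ∀ y, D (T y) = 0 := by
    have : D ∘ₗ T = 0 := by
      apply Finsupp.lhom_ext'
      intro b
      apply LinearMap.pi_ext'
      intro c
      apply LinearMap.ext_ring
      show D (dl M' (Finsupp.single b (Pi.single c 1)) - E (Finsupp.single b (Pi.single c 1))) = 0
      have e : E (Finsupp.single b (Pi.single c 1)) = z b c := by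
        rw [hE, Finsupp.lsum_single]
        simp
      rw [e, map_sub, hz2, sub_self]
    intro y
    exact LinearMap.congr_fun this y
  refine ⟨T, ha, ?_, hc⟩
  intro n
  induction n with
  | zero =>
    intro y hy _
    refine ⟨0, GC0 _, ?_⟩
    rw [map_zero, GCzero H hy]
  | succ n ih =>
    intro y hy hDy
    obtain ⟨w, hw1, hw2⟩ := L (n + 1) y hy hDy
    rw [Nat.add_sub_cancel] at hw1 hw2
    have h1 : GC cp n (y - T w) := by
      have e : y - T w = (y - dl M' w) - (T w - dl M' w) := by abel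
      rw [e]
      exact GCsub hw2 (ha n w hw1)
    obtain ⟨z', hz'1, hz'2⟩ := ih (y - T w) h1 (by rw [map_sub, hDy, hc, sub_self])
    refine ⟨z' + w, ?_, ?_⟩
    · rw [Nat.add_sub_cancel]
      exact GCadd (GCmono (Nat.sub_le _ _) hz'1) hw1
    · rw [map_add, hz'2]; abel

/-- pointwise leading term -/
theorem pw (H : GP A1 cp) {r r' : ℕ} {M' : Fin r' → Fin r → A} (hM' : ∀ i j, M' i j ∈ A1)
    {n : ℕ} {p : Fin r → A} (hp : ∀ c, G cp (n + 1) (p c)) {q : Fin r' → A}
    (hq : mm M' q = fun c => cp n (p c)) :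
    ∃ w : Fin r' → A, (∀ c, G cp n (w c)) ∧ ∀ j, G cp n ((p - mm M' w) j) := by
  have hfin : ∀ j, G cp n (p j - cp n (p j)) := by
    intro j i hi
    rw [map_sub, H.idem]
    split_ifs with h
    · subst h; exact sub_self _
    · rw [sub_zero]; exact hp j i (by omega)
  rcases Nat.eq_zero_or_pos n with rfl | hn
  · refine ⟨0, fun c => G0 _, fun j => ?_⟩
    rw [map_zero, sub_zero]
    have h1 : cp 0 (p j) = 0 := by
      have h2 : cp 0 (cp 0 (p j)) = 0 := by
        have h3 : cp 0 (p j) = mm M' q j := (congrFun hq j).symm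
        rw [h3, mm_apply, map_sum]
        exact Finset.sum_eq_zero fun i _ => H.mul0 _ _ (hM' i j)
      rwa [H.idem, if_pos rfl] at h2
    have := hfin j
    rwa [h1, sub_zero] at this
  · obtain ⟨m, rfl⟩ : ∃ m, n = m + 1 := ⟨n - 1, by omega⟩
    refine ⟨fun c => cp m (q c), fun c i hi => ?_, fun j => ?_⟩
    · rw [H.idem, if_neg (by omega)]
    · have e : mm M' (fun c => cp m (q c)) j = cp (m + 1) (p j) := by
        have h3 : cp (m + 1) (p j) = mm M' q j := (congrFun hq j).symm
        have h4 : cp (m + 1) (cp (m + 1) (p j)) = cp (m + 1) (mm M' q j) := congrArg _ h3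
        rw [H.idem, if_pos rfl] at h4
        rw [h4, mm_apply, mm_apply, map_sum]
        exact Finset.sum_congr rfl fun i _ => (H.mul _ _ (hM' i j) m).symm
      rw [Pi.sub_apply, e]
      exact hfin j

/-- from pointwise to finitely supported -/
theorem lift {r r' n : ℕ} {M' : Fin r' → Fin r → A} (y : B →₀ (Fin r → A))
    (h : ∀ b, y b ≠ 0 → ∃ w : Fin r' → A, (∀ c, G cp n (w c)) ∧
      ∀ j, G cp n ((y b - mm M' w) j)) :
    ∃ w : B →₀ (Fin r' → A), GC cp n w ∧ GC cp n (y - dl M' w) := by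
  classical
  choose! w hw1 hw2 using h
  refine ⟨Finsupp.onFinset y.support (fun b => if y b = 0 then 0 else w b) ?_, ?_, ?_⟩
  · intro b hb
    rw [Finsupp.mem_support_iff]
    intro h0
    exact hb (if_pos h0)
  · intro b c
    rw [Finsupp.onFinset_apply]
    split_ifs with h0
    · exact G0 _
    · exact hw1 b h0 c
  · intro b c
    rw [Finsupp.sub_apply, dl_apply, Finsupp.onFinset_apply]
    split_ifs with h0
    · rw [h0, map_zero, sub_zero]; exact G0 _
    · exact hw2 b h0 c

theorem Lstep (H : GP A1 cp) {r s r' : ℕ} {M : Fin r → Fin s → A} {M' : Fin r' → Fin r → A}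
    (hM : ∀ i j, M i j ∈ A1) (hM' : ∀ i j, M' i j ∈ A1)
    (ex : ∀ p, mm M p = 0 → ∃ q, mm M' q = p)
    (D : (B →₀ (Fin r → A)) →ₗ[A] (B →₀ (Fin s → A)))
    (hD : ∀ n y, GC cp n y → GC cp n (D y - dl M y)) :
    ∀ n (y : B →₀ (Fin r → A)), GC cp n y → D y = 0 →
      ∃ w : B →₀ (Fin r' → A), GC cp (n - 1) w ∧ GC cp (n - 1) (y - dl M' w) := by
  intro n y hy hDy
  rcases Nat.eq_zero_or_pos n with rfl | hn
  · refine ⟨0, GC0 _, ?_⟩
    rw [GCzero H hy]; simpa using GC0 _
  · obtain ⟨m, rfl⟩ : ∃ m, n = m + 1 := ⟨n - 1, by omega⟩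
    rw [Nat.add_sub_cancel]
    apply lift
    intro b _
    have h1 : GC cp (m + 1) (dl M y) := by
      have := GCneg (hD (m + 1) y hy)
      rwa [hDy, zero_sub, neg_neg] at this
    have h2 : mm M (fun c => cp m (y b c)) = 0 := by
      funext j
      have h3 := h1 b j (m + 1) le_rfl
      rw [dl_apply, mm_apply, map_sum] at h3
      rw [mm_apply, Pi.zero_apply, ← h3]
      exact Finset.sum_congr rfl fun i _ => (H.mul _ _ (hM i j) m).symm
    obtain ⟨q, hq⟩ := ex _ h2
    exact pw H hM' (hy b) hq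

/-- one step of the construction -/
theorem step (H : GP A1 cp) {r s r' : ℕ} {Y : Type u} [AddCommGroup Y] [Module A Y]
    {M : Fin r → Fin s → A} {M' : Fin r' → Fin r → A}
    (hM : ∀ i j, M i j ∈ A1) (hM' : ∀ i j, M' i j ∈ A1)
    (cz : ∀ q, mm M (mm M' q) = 0)
    (ex : ∀ p, mm M p = 0 → ∃ q, mm M' q = p)
    (D0 : (B →₀ (Fin s → A)) →ₗ[A] Y)
    (D : (B →₀ (Fin r → A)) →ₗ[A] (B →₀ (Fin s → A)))
    (ha : ∀ n y, GC cp n y → GC cp n (D y - dl M y))
    (hb : ∀ n y, GC cp n y → D0 y = 0 → ∃ z, GC cp (n - 1) z ∧ D z = y)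
    (hc : ∀ y, D0 (D y) = 0) :
    ∃ D' : (B →₀ (Fin r' → A)) →ₗ[A] (B →₀ (Fin r → A)),
      (∀ n y, GC cp n y → GC cp n (D' y - dl M' y)) ∧
      (∀ n y, GC cp n y → D y = 0 → ∃ z, GC cp (n - 1) z ∧ D' z = y) ∧
      (∀ y, D (D' y) = 0) := by
  classical
  apply constr H D M' _ (Lstep H hM hM' ex D ha)
  intro b c
  have h1 : GC cp 1 (Finsupp.single b (Pi.single c 1) : B →₀ (Fin r' → A)) := by
    intro b' c'
    rw [Finsupp.single_apply]
    split_ifs
    · rw [Pi.single_apply]
      split_ifs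
      · exact H.one
      · exact G0 _
    · exact G0 _
  have h2 := dl_GC H hM' h1
  have h3 := ha _ _ h2
  have h4 : dl M (dl M' (Finsupp.single b (Pi.single c 1) : B →₀ (Fin r' → A))) = 0 := by
    ext1 b'
    rw [dl_apply, dl_apply, cz]; rfl
  rw [h4, sub_zero] at h3
  exact hb _ _ h3 (hc _)

theorem pd_succ {P N : Type u} [AddCommGroup P] [Module A P] [AddCommGroup N] [Module A N]
    (f : P →ₗ[A] N) (hf : Function.Surjective f) [Module.Projective A P] (n : ℕ)
    (h : HasProjectiveDimensionLE (ModuleCat.of A (LinearMap.ker f)) n) :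
    HasProjectiveDimensionLE (ModuleCat.of A N) (n + 1) := by
  have hS := LinearMap.shortExact_shortComplexKer hf
  have hP : Projective (ModuleCat.of A P) := (IsProjective.iff_projective _).mp inferInstance
  exact (hS.hasProjectiveDimensionLT_X₃_iff n hP).mpr h

/-- exactness step: `ker D` has projective dimension `≤ n+1` if `ker D'` has `≤ n`. -/
theorem pd_ker {P Q Y : Type u} [AddCommGroup P] [Module A P] [AddCommGroup Q] [Module A Q]
    [AddCommGroup Y] [Module A Y] (D' : P →ₗ[A] Q) (D : Q →ₗ[A] Y)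
    (hc : ∀ y, D (D' y) = 0) (hb : ∀ y, D y = 0 → ∃ z, D' z = y) [Module.Projective A P] (n : ℕ)
    (h : HasProjectiveDimensionLE (ModuleCat.of A (LinearMap.ker D')) n) :
    HasProjectiveDimensionLE (ModuleCat.of A (LinearMap.ker D)) (n + 1) := by
  have hs : Function.Surjective (D'.codRestrict (LinearMap.ker D) fun y => LinearMap.mem_ker.mpr (hc y)) := by
    rintro ⟨y, hy⟩
    obtain ⟨z, hz⟩ := hb y hy
    exact ⟨z, Subtype.ext hz⟩
  apply pd_succ _ hs
  rw [LinearMap.ker_codRestrict]
  exact h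

end

section
variable {k : Type u} [Field k] {A : Type u} [Ring A] [Algebra k A] {𝒜 : ℕ → Submodule k A}

theorem mainGLD : TaskGLD.{u} := by
  classical
  intro k _ A _ _ 𝒜 x m m' hgr hx hm hm' hgen hK N
  have := hgr.graded
  let dec := hgr.internal.chooseDecomposition
  let gr : GradedRing 𝒜 := { this, dec with }
  -- the projections
  let cp : ℕ → A →+ A := fun i => GradedRing.proj 𝒜 i
  have hcp : ∀ i a, cp i a = (DirectSum.decompose 𝒜 a i : A) := fun i a => rfl
  have hcpm : ∀ i a, cp i a ∈ 𝒜 i := fun i a => SetLike.coe_mem _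
  have H : GP (𝒜 1 : Set A) cp :=
    { idem := by
        intro i j a
        split_ifs with h
        · subst h
          rw [hcp i (cp i a)]
          exact DirectSum.decompose_of_mem_same 𝒜 (hcpm i a)
        · rw [hcp j (cp i a)]
          exact DirectSum.decompose_of_mem_ne 𝒜 (hcpm i a) h
      mul := by
        intro a b hb i
        exact DirectSum.coe_decompose_mul_add_of_right_mem 𝒜 hb
      mul0 := by
        intro a b hb
        exact DirectSum.coe_decompose_mul_of_right_mem_of_not_le 𝒜 hb (by omega)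
      fin := by
        intro a
        refine ⟨(DirectSum.decompose 𝒜 a).support.sup id + 1, fun i hi => ?_⟩
        rw [hcp]
        by_contra hne
        have h1 : i ∈ (DirectSum.decompose 𝒜 a).support := by
          rw [DFinsupp.mem_support_toFun]
          intro h0
          exact hne (by rw [h0]; rfl)
        have := Finset.le_sup (f := id) h1
        simp only [id] at this
        omega
      inj := by
        intro a h
        have h1 : DirectSum.decompose 𝒜 a = 0 := by
          ext i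
          rw [← hcp, h i]; rfl
        have h2 := congrArg (DirectSum.decompose 𝒜).symm h1
        simpa using h2
      one := by
        intro i hi
        rw [hcp]
        exact DirectSum.decompose_of_mem_ne 𝒜 SetLike.GradedOne.one_mem (by omega)
      z := by
        intro a ha b i
        have h0 : a ∈ 𝒜 0 := by
          have : a = cp 0 a := by
            have h1 : DirectSum.decompose 𝒜 a = DirectSum.of (fun i => 𝒜 i) 0 (DirectSum.decompose 𝒜 a 0) := by
              ext i
              rcases Nat.eq_zero_or_pos i with rfl | hi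
              · rw [DirectSum.of_eq_same]
              · rw [← hcp, ha i hi, DirectSum.of_eq_of_ne _ _ _ (by omega)]; rfl
            have h2 := congrArg (DirectSum.decompose 𝒜).symm h1
            rw [Equiv.symm_apply_apply, DirectSum.decompose_symm_of] at h2
            exact h2
          rw [this]; exact hcpm 0 a
        exact DirectSum.coe_decompose_mul_of_right_mem_zero 𝒜 h0 }
  -- scalars
  have hsc : ∀ c : k, G cp 1 (algebraMap k A c) := by
    intro c i hi
    rw [hcp]
    exact DirectSum.decompose_of_mem_ne 𝒜 (SetLike.algebraMap_mem_graded 𝒜 c) (by omega)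
  have h01 : ∀ a, G cp 1 a → a ∈ 𝒜 0 := by
    intro a ha
    have : a = cp 0 a := by
      have h1 : DirectSum.decompose 𝒜 a = DirectSum.of (fun i => 𝒜 i) 0 (DirectSum.decompose 𝒜 a 0) := by
        ext i
        rcases Nat.eq_zero_or_pos i with rfl | hi
        · rw [DirectSum.of_eq_same]
        · rw [← hcp, ha i hi, DirectSum.of_eq_of_ne _ _ _ (by omega)]; rfl
      have h2 := congrArg (DirectSum.decompose 𝒜).symm h1
      rw [Equiv.symm_apply_apply, DirectSum.decompose_symm_of] at h2
      exact h2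
    rw [this]; exact hcpm 0 a
  have hnt : Nontrivial A := by
    by_contra hno
    rw [not_nontrivial_iff_subsingleton] at hno
    have h1 := hgr.connected
    have : Subsingleton (𝒜 0) := inferInstance
    rw [Module.finrank_zero_of_subsingleton] at h1
    omega
  have hconn : ∀ a, G cp 1 a → ∃ c : k, a = algebraMap k A c := by
    intro a ha
    have h1 := finrank_eq_one_iff_of_nonzero' (K := k) (V := 𝒜 0)
      ⟨1, SetLike.GradedOne.one_mem⟩ (by
        intro h0
        exact one_ne_zero (congrArg Subtype.val h0)) |>.mp hgr.connected ⟨a, h01 a ha⟩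
    obtain ⟨c, hc⟩ := h1
    refine ⟨c, ?_⟩
    rw [Algebra.algebraMap_eq_smul_one]
    exact (congrArg Subtype.val hc).symm
  -- the module
  let modk : Module k N := Module.compHom N (algebraMap k A)
  have tow : IsScalarTower k A N := ⟨fun c a v => by
    show (c • a) • v = (algebraMap k A c) • (a • v)
    rw [← mul_smul, Algebra.smul_def]⟩
  let bas := Module.Basis.ofVectorSpace k N
  let B : Type u := Module.Basis.ofVectorSpaceIndex k N
  let D0 : (B →₀ (Fin 1 → A)) →ₗ[A] N :=
    Finsupp.lsum ℕ (fun b => (LinearMap.toSpanSingleton A N (bas b)) ∘ₗ (LinearMap.proj 0))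
  have hD0 : ∀ y : B →₀ (Fin 1 → A), D0 y = ∑ b ∈ y.support, y b 0 • bas b := by
    intro y
    rw [Finsupp.lsum_apply]
    rfl
  have hb0 : ∀ v : N, ∃ z : B →₀ (Fin 1 → A), GC cp 1 z ∧ D0 z = v := by
    intro v
    refine ⟨(bas.repr v).mapRange (fun c => fun _ => algebraMap k A c) (by
      funext _; exact map_zero _), ?_, ?_⟩
    · intro b c
      rw [Finsupp.mapRange_apply]; exact hsc _
    · conv_rhs => rw [← bas.linearCombination_repr v]
      rw [Finsupp.lsum_apply, Finsupp.sum_mapRange_index (by intro b; exact map_zero _),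
        Finsupp.linearCombination_apply]
      refine Finsupp.sum_congr fun b _ => ?_
      show (algebraMap k A (bas.repr v b)) • bas b = bas.repr v b • bas b
      rw [algebraMap_smul]
  -- matrices
  let M1 : Fin 4 → Fin 1 → A := fun j _ => x j
  let M2 : Fin 6 → Fin 4 → A := m
  let M3 : Fin 4 → Fin 6 → A := fun j i => m' i j
  let M4 : Fin 1 → Fin 4 → A := fun _ j => x j
  let M5 : Fin 0 → Fin 1 → A := fun i => i.elim0
  have hM1 : ∀ i j, M1 i j ∈ (𝒜 1 : Set A) := fun i _ => hx i
  have hM2 : ∀ i j, M2 i j ∈ (𝒜 1 : Set A) := hm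
  have hM3 : ∀ i j, M3 i j ∈ (𝒜 1 : Set A) := fun i j => hm' j i
  have hM4 : ∀ i j, M4 i j ∈ (𝒜 1 : Set A) := fun _ j => hx j
  have hM5 : ∀ i j, M5 i j ∈ (𝒜 1 : Set A) := fun i => i.elim0
  -- D1
  have hL0 : ∀ n (y : B →₀ (Fin 1 → A)), GC cp n y → D0 y = 0 →
      ∃ w : B →₀ (Fin 4 → A), GC cp (n - 1) w ∧ GC cp (n - 1) (y - dl M1 w) := by
    intro n y hy hDy
    rcases Nat.eq_zero_or_pos n with rfl | hn
    · refine ⟨0, GC0 _, ?_⟩
      rw [GCzero H hy]; simpa using GC0 _
    · obtain ⟨l, rfl⟩ : ∃ l, n = l + 1 := ⟨n - 1, by omega⟩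
      rw [Nat.add_sub_cancel]
      rcases Nat.eq_zero_or_pos l with rfl | hl
      · -- `y` has coefficients in `k`
        choose c hc using fun b => hconn (y b 0) (hy b 0)
        have h1 : ∑ b ∈ y.support, c b • bas b = 0 := by
          rw [hD0] at hDy
          rw [← hDy]
          refine Finset.sum_congr rfl fun b _ => ?_
          rw [hc b, algebraMap_smul]
        have h2 := linearIndependent_iff'.mp bas.linearIndependent y.support c h1
        have h3 : y = 0 := by
          ext b j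
          have : j = 0 := Subsingleton.elim _ _
          subst this
          by_cases hb : b ∈ y.support
          · rw [hc b, h2 b hb, map_zero]; rfl
          · rw [Finsupp.notMem_support_iff.mp hb]; rfl
        refine ⟨0, GC0 _, ?_⟩
        rw [h3]; simpa using GC0 _
      · obtain ⟨l', rfl⟩ : ∃ l', l = l' + 1 := ⟨l - 1, by omega⟩
        apply lift
        intro b _
        obtain ⟨f, hf⟩ := hgen l' (cp (l' + 1) (y b 0)) (hcpm _ _)
        refine pw H hM1 (hy b) (q := f) ?_
        funext j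
        have : j = 0 := Subsingleton.elim _ _
        subst this
        exact hf.symm
  obtain ⟨D1, a1, b1, c1⟩ := constr H D0 M1 (fun b c => hb0 _) hL0
  obtain ⟨D2, a2, b2, c2⟩ := step H (M := M1) (M' := M2) hM1 hM2
    (by
      intro q; funext j
      rw [mm_apply]
      simp only [mm_apply, Finset.sum_mul]
      rw [Finset.sum_comm]
      refine Finset.sum_eq_zero fun i _ => ?_
      have := hK.c1 i
      simp only [mul_assoc, ← Finset.mul_sum]
      show q i * ∑ j, m i j * x j = 0
      rw [this, mul_zero])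
    (by
      intro p hp
      obtain ⟨g, hg⟩ := hK.ex1 p (congrFun hp 0)
      exact ⟨g, funext fun j => (hg j).symm⟩) D0 D1 a1 b1 c1
  obtain ⟨D3, a3, b3, c3⟩ := step H (M := M2) (M' := M3) hM2 hM3
    (by
      intro q; funext l
      rw [mm_apply]
      simp only [mm_apply, Finset.sum_mul]
      rw [Finset.sum_comm]
      refine Finset.sum_eq_zero fun j _ => ?_
      have := hK.c2 j l
      simp only [mul_assoc, ← Finset.mul_sum]
      show q j * ∑ i, m' i j * m i l = 0
      rw [this, mul_zero])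
    (by
      intro p hp
      obtain ⟨g, hg⟩ := hK.ex2 p (fun j => congrFun hp j)
      exact ⟨g, funext fun j => (hg j).symm⟩) D1 D2 a2 b2 c2
  obtain ⟨D4, a4, b4, c4⟩ := step H (M := M3) (M' := M4) hM3 hM4
    (by
      intro q; funext i
      rw [mm_apply]
      simp only [mm_apply, Finset.sum_mul]
      rw [Finset.sum_comm]
      refine Finset.sum_eq_zero fun l _ => ?_
      have := hK.c3 i
      simp only [mul_assoc, ← Finset.mul_sum]
      show q l * ∑ j, x j * m' i j = 0
      rw [this, mul_zero])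
    (by
      intro p hp
      obtain ⟨g, hg⟩ := hK.ex3 p (fun j => congrFun hp j)
      refine ⟨fun _ => g, funext fun j => ?_⟩
      rw [mm_apply, Fin.sum_univ_one]; exact (hg j).symm) D2 D3 a3 b3 c3
  obtain ⟨D5, a5, b5, c5⟩ := step H (M := M4) (M' := M5) hM4 hM5
    (by
      intro q
      have : q = 0 := Subsingleton.elim _ _
      rw [this, map_zero, map_zero])
    (by
      intro p hp
      have h0 : p 0 = 0 := hK.ex4 (p 0) (fun j => by
        have := congrFun hp j
        rw [mm_apply, Fin.sum_univ_one] at this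
        exact this)
      refine ⟨0, ?_⟩
      rw [map_zero]
      funext j
      have : j = 0 := Subsingleton.elim _ _
      subst this
      exact h0.symm) D3 D4 a4 b4 c4
  -- exactness
  have e0 : ∀ y, D0 y = 0 → ∃ z, D1 z = y := fun y hy => by
    obtain ⟨n, hn⟩ := GCex H y
    obtain ⟨z, _, hz⟩ := b1 n y hn hy
    exact ⟨z, hz⟩
  have e1 : ∀ y, D1 y = 0 → ∃ z, D2 z = y := fun y hy => by
    obtain ⟨n, hn⟩ := GCex H y
    obtain ⟨z, _, hz⟩ := b2 n y hn hy
    exact ⟨z, hz⟩
  have e2 : ∀ y, D2 y = 0 → ∃ z, D3 z = y := fun y hy => by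
    obtain ⟨n, hn⟩ := GCex H y
    obtain ⟨z, _, hz⟩ := b3 n y hn hy
    exact ⟨z, hz⟩
  have e3 : ∀ y, D3 y = 0 → ∃ z, D4 z = y := fun y hy => by
    obtain ⟨n, hn⟩ := GCex H y
    obtain ⟨z, _, hz⟩ := b4 n y hn hy
    exact ⟨z, hz⟩
  have e4 : ∀ y, D4 y = 0 → y = 0 := fun y hy => by
    obtain ⟨n, hn⟩ := GCex H y
    obtain ⟨z, _, hz⟩ := b5 n y hn hy
    have : z = 0 := by
      ext b c
      exact c.elim0
    rw [← hz, this, map_zero]
  -- projective dimensions
  have p3 : HasProjectiveDimensionLE (ModuleCat.of A (LinearMap.ker D3)) 0 := by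
    have hbij : Function.Bijective (D4.codRestrict (LinearMap.ker D3) fun y => LinearMap.mem_ker.mpr (c4 y)) := by
      constructor
      · intro y y' h
        have h4 : D4 (y - y') = 0 := by
          rw [map_sub, sub_eq_zero]
          exact congrArg Subtype.val h
        exact sub_eq_zero.mp (e4 _ h4)
      · rintro ⟨y, hy⟩
        obtain ⟨z, hz⟩ := e3 y hy
        exact ⟨z, Subtype.ext hz⟩
    have : Module.Projective A (LinearMap.ker D3) :=
      Module.Projective.of_equiv (LinearEquiv.ofBijective _ hbij)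
    rw [← projective_iff_hasProjectiveDimensionLE_zero]
    exact (IsProjective.iff_projective _).mp inferInstance
  have p2 := pd_ker D3 D2 c3 e2 0 p3
  have p1 := pd_ker D2 D1 c2 e1 1 p2
  have p0 := pd_ker D1 D0 c1 e0 2 p1
  have hs : Function.Surjective D0 := fun v => by
    obtain ⟨z, _, hz⟩ := hb0 v
    exact ⟨z, hz⟩
  exact pd_succ D0 hs 3 p0

end

end Pool.Agent.W991.PMGLD
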